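import Mathlib
import Pool.Agent.H30.Plank

set_option autoImplicit false

namespace Pool.Agent.Results.MP_231ef3_gt.Plank

/-- `F` takes non-empty closed values in `X` and is upper semi-continuous. -/
def IsUSC {Y X : Type*} [TopologicalSpace Y] [TopologicalSpace X] (F : Y → Set X) : Prop :=
  (∀ y, (F y).Nonempty ∧ IsClosed (F y)) ∧ ∀ U : Set X, IsOpen U → IsOpen {y | F y ⊆ U}

/-- Set-self-Tietze spaces. -/
def SetSelfTietze (X : Type*) [TopologicalSpace X] : Prop :=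
  ∀ A : Set X, IsClosed A → ∀ f : A → Set X, IsUSC f →
    ∃ F : X → Set X, IsUSC F ∧ ∀ a : A, F a = f a

/-- The Tychonoff plank. -/
abbrev Plank := Set.Iic (Ordinal.omega.{0} 1) × Set.Iic (Ordinal.omega0.{0})

theorem result : OrderTopology (Set.Iic (Ordinal.omega.{0} 1)) ∧
    OrderTopology (Set.Iic (Ordinal.omega0.{0})) ∧ ¬ SetSelfTietze Plank := by
  refine ⟨inferInstance, inferInstance, fun h => ?_⟩
  obtain ⟨A, f, hA, h1, h2, h3⟩ := Pool.Agent.H30.Plank.core
  obtain ⟨F, hF, he⟩ := h A hA f ⟨h1, h2⟩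
  exact h3 ⟨F, hF.1, hF.2, he⟩

end Pool.Agent.Results.MP_231ef3_gt.Plank
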